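import Pool.Agent.V8H36.HZ
import Pool.Agent.V8H36.SW.Asm
import Pool.Agent.V8H36.SW.Uni

set_option autoImplicit false

/-!
# The law of the derivative of Hardy's function at its simple zeros

Selberg's central limit theorem and its analogue for the derivative at the zeros (Hejhal, conditional on the Riemann
hypothesis and a hypothesis on the spacings) suggest that `(log |Z'(t)| - log log t) / √(½ log log t)` has a standard normal
limiting distribution over the zeros `t` of `Z`. Unconditionally, every interval receives at least the share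
`3/2 - cot(1/√2)/√2 = 0.6725…` of what this law predicts, by simple zeros that are isolated; uniformly in the interval.
The parts of the proof were formalized by an earlier team (project SW, plan by helper745), and assembled here.
-/

open Filter Topology Complex

namespace Pool.Agent.Results.MP_6bc78b_nt.LawOfDerivative

open Pool.Agent.V8H36.HZ

/-- the normalised logarithm of the derivative, `(log |Z'(t)| - log log t) / √(½ log log t)` -/
noncomputable def size (t : ℝ) : ℝ :=
  (Real.log ‖deriv Z t‖ - Real.log (Real.log t)) / Real.sqrt (1 / 2 * Real.log (Real.log t))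

/-- the real zeros `t` of `Z` in `(0, T]` that are simple, at distance at least `δ / log t` from all other nontrivial zeros of
zeta, and at which the normalised logarithm of the derivative lies in `(a, b)` -/
def simpleZeros (δ a b T : ℝ) : Set ℝ :=
  {t : ℝ | 0 < t ∧ t ≤ T ∧ Z t = 0 ∧ deriv Z t ≠ 0 ∧
    (∀ s : ℂ, riemannZeta s = 0 → 0 < s.re → s.re < 1 → s ≠ 1 / 2 + I * t →
      δ / Real.log t ≤ ‖s - (1 / 2 + I * t)‖) ∧
    a < size t ∧ size t < b}

theorem simpleZeros_finite (δ a b T : ℝ) : (simpleZeros δ a b T).Finite :=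
  real_finite fun _ ht => ⟨ht.1, ht.2.1, ht.2.2.1⟩

lemma size_eq (t y : ℝ) :
    Pool.Agent.Y745.SW.nrm t y = (y - Real.log (Real.log t)) / Real.sqrt (1 / 2 * Real.log (Real.log t)) := by
  unfold Pool.Agent.Y745.SW.nrm
  set ℓ := Real.log (Real.log t)
  have h1 : Real.sqrt (1 / 2 * ℓ) = Real.sqrt ℓ / Real.sqrt 2 := by
    rw [Real.sqrt_mul (by norm_num), Real.sqrt_div (by norm_num), Real.sqrt_one]
    ring
  have h3 : 0 < Real.sqrt 2 := by positivity
  rw [h1, div_div_eq_mul_div]
  ring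

/-- passing to Hardy's function -/
lemma PQn_le (δ a b T : ℝ) :
    Pool.Agent.Y745.SW.PQn (Pool.Agent.Y745.SW.Qs a b δ) 0 T ≤ (simpleZeros δ a b T).ncard := by
  unfold Pool.Agent.Y745.SW.PQn
  refine Set.ncard_le_ncard_of_injOn (fun s => s.im) ?_ ?_ (simpleZeros_finite δ a b T)
  · rintro s ⟨⟨h1, h2, h3, h4, h5⟩, h6, h7, h8, h9, h10, h11⟩
    have hs := half_eq h6
    have hz : riemannZeta (1 / 2 + I * (s.im : ℂ)) = 0 := by rw [hs]; exact h5
    have hd : deriv Z s.im ≠ 0 := simple_of_order hz (by rw [hs]; exact h7)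
    have hn : ‖deriv Z s.im‖ = ‖deriv riemannZeta s‖ := by rw [norm_deriv hz, hs]
    rw [size_eq] at h10 h11
    refine ⟨h3, h4, (Z_zero_iff _).mpr hz, hd, ?_, ?_, ?_⟩
    · intro s' k1 k2 k3 k4
      rw [hs] at k4 ⊢
      exact h9 s' k1 k2 k3 k4
    · unfold size; rw [hn]; exact h10
    · unfold size; rw [hn]; exact h11
  · rintro s ⟨-, h6, -⟩ s' ⟨-, h6', -⟩ h
    exact Complex.ext (h6.trans h6'.symm) h

lemma PQn_mono' {δ δ' a a' b b' : ℝ} (X : ℝ) (h1 : δ' ≤ δ) (h2 : a' ≤ a) (h3 : b ≤ b') :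
    Pool.Agent.Y745.SW.PQn (Pool.Agent.Y745.SW.Qs a b δ) 0 X ≤
      Pool.Agent.Y745.SW.PQn (Pool.Agent.Y745.SW.Qs a' b' δ') 0 X := by
  unfold Pool.Agent.Y745.SW.PQn
  refine Set.ncard_le_ncard ?_ ((H370.zeta_zeros_finite X).subset fun s hs => hs.1)
  rintro s ⟨hs, h6, h7, h8, h9, h10, h11⟩
  refine ⟨hs, h6, h7, h8, fun s' k1 k2 k3 k4 => ?_, by linarith, by linarith⟩
  have hlog : 0 < Real.log s.im := Real.log_pos (by linarith)
  exact (div_le_div_of_nonneg_right h1 hlog.le).trans (h9 s' k1 k2 k3 k4)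

/-- For every `ε > 0` there is `δ > 0` such that for all large `T` and ALL `a < b` the number of simple real zeros `t ≤ T` of
`Z`, isolated by `δ / log t`, with normalised logarithm of the derivative in `(a, b)` is at least
`((3/2 - cot(1/√2)/√2) γ(a, b) - ε) N(T)`, where `γ` is the standard normal law. -/
theorem result : ∀ ε : ℝ, 0 < ε → ∃ δ : ℝ, 0 < δ ∧ ∃ T₀ : ℝ, ∀ T : ℝ, T₀ ≤ T → ∀ a b : ℝ, a < b →
    ((3 / 2 - Real.cot (1 / Real.sqrt 2) / Real.sqrt 2) *
        (ProbabilityTheory.gaussianReal 0 1).real (Set.Ioo a b) - ε) * (N T : ℝ) ≤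
      ((simpleZeros δ a b T).ncard : ℝ) := by
  intro ε hε
  have hc : 3 / 2 - Real.cot (1 / Real.sqrt 2) / Real.sqrt 2 = 2 - H370.cMTinv := by
    unfold H370.cMTinv; ring
  have hc1 := H370.cMTinv_gt_one
  have hc2 := H370.cMTinv_lt
  obtain ⟨δ, hδ, X0, h⟩ := Pool.Agent.V8H36.SW.uniform
    (f := fun δ a b X => (Pool.Agent.Y745.SW.PQn (Pool.Agent.Y745.SW.Qs a b δ) 0 X : ℝ))
    (N := fun X => (H370.NN riemannZeta 0 X : ℝ)) (c := 2 - H370.cMTinv) (by linarith) (by linarith)
    (fun X => Nat.cast_nonneg _) (fun _ _ _ _ => Nat.cast_nonneg _)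
    (fun δ δ' a a' b b' X h1 h2 h3 => by
      have := PQn_mono' X h1 h2 h3
      exact_mod_cast this)
    (fun a b ε hab hε => Pool.Agent.V8H36.SW.a_law hab hε) hε
  refine ⟨δ, hδ, X0, fun T hT a b hab => ?_⟩
  have h1 := h T hT a b hab
  have h2 : (Pool.Agent.Y745.SW.PQn (Pool.Agent.Y745.SW.Qs a b δ) 0 T : ℝ) ≤ ((simpleZeros δ a b T).ncard : ℝ) := by
    exact_mod_cast PQn_le δ a b T
  rw [hc, N_eq]
  exact h1.trans h2

end Pool.Agent.Results.MP_6bc78b_nt.LawOfDerivative
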