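import Pool.Agent.V8H36.HZ
import Pool.Agent.V8H36.LD.EW

set_option autoImplicit false

/-!
# The zeros of Hardy's function near its exceptional values

For most `t` the value `|Z(t)|` is `(log t) ^ o(1)`. The set of the heights `t ∈ [T, 2 T]` at which `|Z(t)| = (log T) ^ (κ ± ε)`
has the measure `T (log T) ^ (-κ² + O(ε))`. We show, unconditionally and for every real `κ`, that on a set of such heights of
at least this measure the zeros of `Z` next to `t` (in an interval `[t - r, t + r]` with many, but at most `(log T) ^ ε`, zeros)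
behave as the zeros do on average: the share `3/2 - cot(1/√2)/√2 = 0.6725…` of them are simple and isolated, with a
derivative of the size `(log T) ^ (1 + κ ± ε)`.
The parts of the proof were formalized by an earlier team (projects LD and EW, plan by helper745), except for the upper
bounds for the weighted moments and the measure of the exceptional heights; these are added, and everything is assembled,
here.
-/

open Filter Topology Complex MeasureTheory

namespace Pool.Agent.Results.MP_6bc78b_nt.NearExceptionalValues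

open Pool.Agent.V8H36.HZ H370 Pool.Agent.Y745.SW Pool.Agent.Y745.LD

/-- the zeros `u` of `Z` in `[t - r, t + r]` that are simple, at distance at least `δ / log T` from all other nontrivial zeros
of zeta, and satisfy `(log T) ^ (1 + κ - ε) ≤ |Z'(u)| ≤ (log T) ^ (1 + κ + ε)` -/
def good (δ κ ε T t r : ℝ) : Set ℝ :=
  {u : ℝ | |u - t| ≤ r ∧ Z u = 0 ∧ deriv Z u ≠ 0 ∧
    (∀ s : ℂ, riemannZeta s = 0 → 0 < s.re → s.re < 1 → s ≠ 1 / 2 + I * u →
      δ / Real.log T ≤ ‖s - (1 / 2 + I * u)‖) ∧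
    Real.log T ^ (1 + κ - ε) ≤ ‖deriv Z u‖ ∧ ‖deriv Z u‖ ≤ Real.log T ^ (1 + κ + ε)}

/-- the nontrivial zeros of zeta with ordinate in `[t - r, t + r]` -/
def near (t r : ℝ) : Set ℂ := {s : ℂ | riemannZeta s = 0 ∧ 0 < s.re ∧ s.re < 1 ∧ |s.im - t| ≤ r}

/-- the number of all nontrivial zeros of zeta with ordinate in `[t - r, t + r]`, counted with multiplicity -/
noncomputable def count (t r : ℝ) : ℕ := ∑ᶠ s ∈ near t r, analyticOrderNatAt riemannZeta s

lemma near_finite {t r : ℝ} (h : 0 < t - r) : (near t r).Finite := by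
  refine (zeros_finite (t + r)).subset ?_
  rintro s ⟨h1, h2, h3, h4⟩
  rw [abs_le] at h4
  exact ⟨h1, h2, h3, by linarith, by linarith⟩

lemma good_finite {δ κ ε T t r : ℝ} (h : 0 < t - r) : (good δ κ ε T t r).Finite := by
  refine real_finite (T := t + r) ?_
  rintro u ⟨h1, h2, -⟩
  rw [abs_le] at h1
  exact ⟨by linarith, by linarith, h2⟩

lemma count_eq {U1 U2 t r : ℝ} (hU1 : 1 ≤ U1) (h1 : U1 < t - r) (h2 : t + r ≤ U2) :
    (count t r : ℝ) = nz U1 U2 (t - r) (t + r) := by
  classical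
  unfold count nz
  have e : near t r = ↑((Zf riemannZeta U1 U2).filter (fun s => t - r ≤ s.im ∧ s.im ≤ t + r)) := by
    ext s
    rw [Finset.mem_coe, Finset.mem_filter, mem_Zf good_zeta hU1]
    constructor
    · rintro ⟨a1, a2, a3, a4⟩
      rw [abs_le] at a4
      exact ⟨⟨a2, a3, by linarith, by linarith, a1⟩, by linarith, by linarith⟩
    · rintro ⟨⟨a2, a3, a5, a6, a1⟩, a7, a8⟩
      exact ⟨a1, a2, a3, abs_le.mpr ⟨by linarith, by linarith⟩⟩
  rw [finsum_mem_congr e (fun _ _ => rfl), finsum_mem_coe_finset]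
  push_cast
  rfl

lemma card_le {δ κ ε T U1 U2 t r : ℝ} (hT : 1 < Real.log T) (hδ : δ ≤ 1) (hU1 : 1 ≤ U1) (h1 : U1 + 1 ≤ t - r)
    (h2 : t + r ≤ U2 - 1) :
    ((((isoS U1 U2 (δ / Real.log T)).filter (fun s =>
          |Real.log ‖deriv riemannZeta s‖ - (1 + κ) * LL T| ≤ ε * LL T)).filter
            (fun s => |s.im - t| ≤ r)).card) ≤ (good δ κ ε T t r).ncard := by
  classical
  have hL0 : 0 < Real.log T := by linarith
  rw [← Set.ncard_coe_finset]
  refine Set.ncard_le_ncard_of_injOn (fun s => s.im) ?_ ?_ (good_finite (by linarith))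
  · intro s hs
    rw [Finset.mem_coe, Finset.mem_filter, Finset.mem_filter, isoS, Finset.mem_filter, mem_Zf good_zeta hU1] at hs
    obtain ⟨⟨⟨⟨k1, k2, k3, k4, k5⟩, k6, k7, k8⟩, k11⟩, k12⟩ := hs
    have e := half_eq k6
    have hz : riemannZeta (1 / 2 + I * (s.im : ℂ)) = 0 := by rw [e]; exact k5
    have hd : deriv Z s.im ≠ 0 := simple_of_order hz (by rw [e]; exact k7)
    have hn : ‖deriv Z s.im‖ = ‖deriv riemannZeta s‖ := by rw [norm_deriv hz, e]
    have hnpos : 0 < ‖deriv Z s.im‖ := norm_pos_iff.mpr hd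
    have k12' := k12
    rw [abs_le] at k11 k12'
    refine ⟨k12, (Z_zero_iff _).mpr hz, hd, ?_, ?_, ?_⟩
    · intro s' p1 p2 p3 p4
      rw [e] at p4 ⊢
      by_cases hin : U1 < s'.im ∧ s'.im ≤ U2
      · have := k8 s' ((mem_Zf good_zeta hU1).mpr ⟨p2, p3, hin.1, hin.2, p1⟩) p4
        rw [norm_sub_rev] at this
        exact this
      · have h1 : (1:ℝ) ≤ |(s' - s).im| := by
          rw [Complex.sub_im]
          rw [not_and_or] at hin
          rcases hin with hin | hin
          · rw [abs_of_nonpos (by linarith)]; linarith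
          · rw [abs_of_nonneg (by linarith)]; linarith
        have h2 : δ / Real.log T ≤ 1 := by
          rw [div_le_one hL0]; linarith
        exact h2.trans (h1.trans (Complex.abs_im_le_norm _))
    · rw [hn] at hnpos ⊢
      rw [Real.rpow_def_of_pos hL0, ← Real.le_log_iff_exp_le hnpos]
      have : Real.log (Real.log T) = LL T := rfl
      rw [this]
      linarith
    · rw [hn] at hnpos ⊢
      rw [Real.rpow_def_of_pos hL0, ← Real.log_le_iff_le_exp hnpos]
      have : Real.log (Real.log T) = LL T := rfl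
      rw [this]
      linarith
  · intro s hs s' hs' h
    rw [Finset.mem_coe, Finset.mem_filter, Finset.mem_filter, isoS, Finset.mem_filter] at hs hs'
    exact Complex.ext (hs.1.1.2.1.trans hs'.1.1.2.1.symm) h

lemma good_mono {δ κ ε ε' T t r : ℝ} (hT : 1 < Real.log T) (h : ε ≤ ε') :
    good δ κ ε T t r ⊆ good δ κ ε' T t r := by
  rintro u ⟨h1, h2, h3, h4, h5, h6⟩
  exact ⟨h1, h2, h3, h4, (Real.rpow_le_rpow_of_exponent_le hT.le (by linarith)).trans h5,
    h6.trans (Real.rpow_le_rpow_of_exponent_le hT.le (by linarith))⟩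

/-- Unconditionally: with `c = 3/2 - cot(1/√2)/√2 = 0.6725…`, for every `ε > 0` there is `δ > 0`, and for every real `κ` there is
`e > 0`, such that for all large `T` there are `r` with `(log T) ^ (e - 1) ≤ r ≤ (log T) ^ (ε - 1)` and a measurable set
`E ⊆ [T, 2 T]` of measure at least `T (log T) ^ (-κ² - ε)` with the following properties, for every `t ∈ E`:
`(log T) ^ (κ - ε) ≤ |Z(t)| ≤ (log T) ^ (κ + ε)`; at least `(c - ε) r log T / π` of the zeros `u` of `Z` in `[t - r, t + r]` are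
simple, at distance at least `δ / log T` from all other nontrivial zeros, and satisfy
`(log T) ^ (1 + κ - ε) ≤ |Z'(u)| ≤ (log T) ^ (1 + κ + ε)`; and the other nontrivial zeros of zeta with ordinate in
`[t - r, t + r]`, counted with multiplicity, number at most `(1 - c + ε) r log T / π`. -/
theorem result : ∀ ε : ℝ, 0 < ε → ∃ δ : ℝ, 0 < δ ∧ ∀ κ : ℝ, ∃ e : ℝ, 0 < e ∧ ∀ᶠ T : ℝ in atTop,
    ∃ (r : ℝ) (E : Set ℝ), Real.log T ^ (e - 1) ≤ r ∧ r ≤ Real.log T ^ (ε - 1) ∧ MeasurableSet E ∧
      E ⊆ Set.Icc T (2 * T) ∧ T * Real.log T ^ (-κ ^ 2 - ε) ≤ volume.real E ∧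
      ∀ t ∈ E, Real.log T ^ (κ - ε) ≤ ‖Z t‖ ∧ ‖Z t‖ ≤ Real.log T ^ (κ + ε) ∧
        (3 / 2 - Real.cot (1 / Real.sqrt 2) / Real.sqrt 2 - ε) * (r * Real.log T / Real.pi) ≤
          ((good δ κ ε T t r).ncard : ℝ) ∧
        (count t r : ℝ) ≤ ((good δ κ ε T t r).ncard : ℝ) +
          (1 - (3 / 2 - Real.cot (1 / Real.sqrt 2) / Real.sqrt 2) + ε) * (r * Real.log T / Real.pi) := by
  classical
  intro ε hε
  have hc : 3 / 2 - Real.cot (1 / Real.sqrt 2) / Real.sqrt 2 = 2 - H370.cMTinv := by
    unfold H370.cMTinv; ring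
  rw [hc]
  obtain ⟨δ, hδ, hδ1, h⟩ := Pool.Agent.V8H36.LD.b_ew (min ε (1 / 2)) (by positivity) (min_le_right _ _)
  refine ⟨δ, hδ, fun κ => ?_⟩
  obtain ⟨e, he, h⟩ := h κ
  refine ⟨e, he, ?_⟩
  have hεε : min ε (1 / 2) ≤ ε := min_le_left _ _
  have hε2 : min ε (1 / 2) ≤ 1 / 2 := min_le_right _ _
  have hε0 : 0 < min ε (1 / 2) := by positivity
  set ε' : ℝ := min ε (1 / 2) with hε'
  filter_upwards [h, Real.tendsto_log_atTop.eventually_ge_atTop 2, eventually_ge_atTop 1] with T hT hL hT1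
  obtain ⟨U1, U2, r, E, u1, u2, u3, u4, hr1, hr2, hE, hEs, hEv, hT⟩ := hT
  have hL1 : 1 < Real.log T := by linarith
  have hL0 : 0 < Real.log T := by linarith
  have hr0 : 0 ≤ r := (Real.rpow_nonneg hL0.le _).trans hr1
  have hr3 : r ≤ 1 := hr2.trans (Real.rpow_le_one_of_one_le_of_nonpos hL1.le (by linarith))
  have hX : 0 ≤ r * Real.log T / Real.pi := by have := Real.pi_pos; positivity
  -- the zeros of `Z` are removed from the set of heights
  set F : Set ℝ := {t : ℝ | T ≤ t ∧ t ≤ 2 * T ∧ Z t = 0} with hF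
  have hFf : F.Finite := real_finite (T := 2 * T) fun t ht => ⟨by linarith [ht.1], ht.2.1, ht.2.2⟩
  have hF0 : volume F = 0 := hFf.measure_zero _
  refine ⟨r, E \ F, hr1, hr2.trans (Real.rpow_le_rpow_of_exponent_le hL1.le (by linarith)),
    hE.diff hFf.measurableSet, Set.sdiff_subset.trans (hEs.trans (Set.Icc_subset_Icc (by linarith) (by linarith))),
    ?_, fun t ht' => ?_⟩
  · have hsd : volume.real (E \ F) = volume.real E := by
      unfold Measure.real
      rw [measure_sdiff_null hF0]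
    rw [hsd]
    refine le_trans ?_ hEv
    exact mul_le_mul_of_nonneg_left (Real.rpow_le_rpow_of_exponent_le hL1.le (by linarith)) (by linarith)
  have ht : t ∈ E := ht'.1
  obtain ⟨a1, a2, a3⟩ := hT t ht
  have hE1 := hEs ht
  have hw1 : U1 + 1 ≤ t - r := by linarith [hE1.1]
  have hw2 : t + r ≤ U2 - 1 := by linarith [hE1.2]
  have hU1 : 1 ≤ U1 := by linarith
  have hcard := card_le (κ := κ) (ε := ε') hL1 (show δ ≤ 1 by linarith) hU1 hw1 hw2
  have hcard2 : (good δ κ ε' T t r).ncard ≤ (good δ κ ε T t r).ncard :=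
    Set.ncard_le_ncard (good_mono hL1 hεε) (good_finite (by linarith))
  have hcard3 : ((((isoS U1 U2 (δ / Real.log T)).filter (fun s =>
          |Real.log ‖deriv riemannZeta s‖ - (1 + κ) * LL T| ≤ ε' * LL T)).filter
            (fun s => |s.im - t| ≤ r)).card : ℝ) ≤ ((good δ κ ε T t r).ncard : ℝ) := by
    exact_mod_cast hcard.trans hcard2
  -- the value of zeta
  have hZn : ‖Z t‖ = ‖riemannZeta (1 / 2 + t * I)‖ := by
    unfold Z
    rw [norm_mul, phase_norm, one_mul, mul_comm I]
  have hLL : LL T = Real.log (Real.log T) := rfl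
  have hLL0 : 0 < LL T := Real.log_pos hL1
  have hcount := count_eq (U2 := U2) hU1 (show U1 < t - r by linarith) (show t + r ≤ U2 by linarith)
  have hZne : Z t ≠ 0 := fun h0 => ht'.2 ⟨by linarith [hE1.1], by linarith [hE1.2], h0⟩
  have hZpos : 0 < ‖Z t‖ := norm_pos_iff.mpr hZne
  have hεLL : ε' * LL T ≤ ε * LL T := mul_le_mul_of_nonneg_right hεε hLL0.le
  rw [← hZn, abs_le] at a1
  refine ⟨?_, ?_, ?_, ?_⟩
  · rw [Real.rpow_def_of_pos hL0, ← Real.le_log_iff_exp_le hZpos, ← hLL]
    linarith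
  · rw [Real.rpow_def_of_pos hL0, ← Real.log_le_iff_le_exp hZpos, ← hLL]
    linarith
  · refine le_trans ?_ (a2.trans hcard3)
    exact mul_le_mul_of_nonneg_right (by linarith) hX
  · rw [hcount]
    refine a3.trans (add_le_add hcard3 ?_)
    exact mul_le_mul_of_nonneg_right (by linarith) hX

end Pool.Agent.Results.MP_6bc78b_nt.NearExceptionalValues
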