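import Pool.Agent.V8H36.HZ
import Pool.Agent.V8H36.LD.Asm

set_option autoImplicit false

/-!
# The zeros of Hardy's function at which the derivative has an exceptional size

At almost all zeros `t` of `Z` one expects `|Z'(t)| = (log t) ^ (1 + o(1))`. For every real `κ` we show, unconditionally,
that there are at least `T (log T) ^ (1 - κ² - ε)` zeros `t ∈ (T, 2 T]` of `Z` that are simple, isolated by `δ / log t` from all
other zeros, and satisfy `|Z'(t)| = (log t) ^ (1 + κ ± ε)`; for `0 ≤ κ ≤ 2` the number of ALL zeros of `Z` in `(T, 2 T]` with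
`|Z'(t)| ≥ (log t) ^ (1 + κ)` is at most `T (log T) ^ (1 - κ² + ε)`, so that the exponent `1 - κ²` is exact there.
The parts of the proof were formalized by an earlier team (projects LD and UP, plan by helper745), except for the moments of
zeta at distance `1 / log T` from the line, the upper bounds for the weighted moments and the measure of the exceptional
heights; these are added, and everything is assembled, here.
-/

open Filter Topology Complex

namespace Pool.Agent.Results.MP_6bc78b_nt.SpectrumOfDerivative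

open Pool.Agent.V8H36.HZ H370 Pool.Agent.Y745.SW Pool.Agent.Y745.LD

/-- the real zeros `t` of `Z` in `(T, 2 T]` that are simple, at distance at least `δ / log t` from all other nontrivial zeros
of zeta, and satisfy `(log t) ^ (1 + κ - ε) ≤ |Z'(t)| ≤ (log t) ^ (1 + κ + ε)` -/
def simpleZeros (δ κ ε T : ℝ) : Set ℝ :=
  {t : ℝ | T < t ∧ t ≤ 2 * T ∧ Z t = 0 ∧ deriv Z t ≠ 0 ∧
    (∀ s : ℂ, riemannZeta s = 0 → 0 < s.re → s.re < 1 → s ≠ 1 / 2 + I * t →
      δ / Real.log t ≤ ‖s - (1 / 2 + I * t)‖) ∧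
    Real.log t ^ (1 + κ - ε) ≤ ‖deriv Z t‖ ∧ ‖deriv Z t‖ ≤ Real.log t ^ (1 + κ + ε)}

/-- the real zeros `t` of `Z` in `(T, 2 T]` with `|Z'(t)| ≥ (log t) ^ (1 + κ)` -/
def largeZeros (κ T : ℝ) : Set ℝ :=
  {t : ℝ | T < t ∧ t ≤ 2 * T ∧ Z t = 0 ∧ Real.log t ^ (1 + κ) ≤ ‖deriv Z t‖}

/-- passing from `log log t` to `log log T` -/
lemma loglog {a b : ℝ} (hb : 0 < b) : ∀ᶠ T : ℝ in atTop, 1 < Real.log T ∧ ∀ t : ℝ, T ≤ t → t ≤ 2 * T →
    |a * Real.log (Real.log t) - a * LL T| ≤ b * LL T ∧ LL T ≤ Real.log (Real.log t) := by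
  have h1 : ∀ᶠ T : ℝ in atTop, |a| ≤ b * LL T := by
    have : Tendsto (fun T : ℝ => LL T) atTop atTop := Real.tendsto_log_atTop.comp Real.tendsto_log_atTop
    exact (this.const_mul_atTop hb).eventually_ge_atTop _
  filter_upwards [h1, Real.tendsto_log_atTop.eventually_ge_atTop 2, eventually_gt_atTop 2] with T h1 h2 h3
  refine ⟨by linarith, fun t ht1 ht2 => ?_⟩
  have hT0 : 0 < T := by linarith
  have hL0 : 0 < Real.log T := by linarith
  have h4 : Real.log T ≤ Real.log t := Real.log_le_log hT0 ht1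
  have h5 : Real.log t ≤ Real.log 2 + Real.log T := by
    rw [← Real.log_mul (by norm_num) hT0.ne']
    exact Real.log_le_log (by linarith) ht2
  have h6 : LL T ≤ Real.log (Real.log t) := Real.log_le_log hL0 h4
  have h7 : Real.log (Real.log t) ≤ LL T + 1 := by
    have h8 : Real.log t ≤ Real.exp 1 * Real.log T := by
      have : Real.log 2 ≤ 1 := by
        have := Real.log_two_lt_d9
        linarith
      have h9 : 2 ≤ Real.exp 1 := by
        have := Real.add_one_le_exp (1:ℝ)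
        linarith
      nlinarith
    calc Real.log (Real.log t) ≤ Real.log (Real.exp 1 * Real.log T) := Real.log_le_log (by linarith) h8
      _ = 1 + LL T := by
        rw [Real.log_mul (Real.exp_pos 1).ne' hL0.ne', Real.log_exp]; rfl
      _ = LL T + 1 := by ring
  refine ⟨?_, h6⟩
  rw [← mul_sub, abs_mul]
  calc |a| * |Real.log (Real.log t) - LL T| ≤ |a| * 1 := by
        refine mul_le_mul_of_nonneg_left ?_ (abs_nonneg _)
        rw [abs_le]; constructor <;> linarith
    _ ≤ b * LL T := by linarith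

theorem simpleZeros_finite (δ κ ε T : ℝ) (hT : 0 ≤ T) : (simpleZeros δ κ ε T).Finite :=
  real_finite (T := 2 * T) fun _ ht => ⟨lt_of_le_of_lt hT ht.1, ht.2.1, ht.2.2.1⟩

theorem lower : ∃ δ : ℝ, 0 < δ ∧ ∀ κ ε : ℝ, 0 < ε → ∀ᶠ T : ℝ in atTop,
    T * Real.log T ^ (1 - κ ^ 2 - ε) ≤ ((simpleZeros δ κ ε T).ncard : ℝ) := by
  classical
  obtain ⟨δ, hδ, hδ1, h⟩ := Pool.Agent.V8H36.LD.b_ld
  refine ⟨δ, hδ, fun κ ε hε => ?_⟩
  filter_upwards [h κ (ε / 2) (by positivity), loglog (a := 1 + κ - ε) (show 0 < ε / 2 by positivity),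
    loglog (a := 1 + κ + ε) (show 0 < ε / 2 by positivity), eventually_gt_atTop 2] with T hT hl1 hl2 hT2
  obtain ⟨U1, U2, u1, u2, u3, u4, hT⟩ := hT
  have hL1 : 1 < Real.log T := hl1.1
  have hL0 : 0 < Real.log T := by linarith
  have hLL0 : 0 < LL T := Real.log_pos hL1
  have hexp : T * Real.log T ^ (1 - κ ^ 2 - ε) ≤ T * Real.log T ^ (1 - κ ^ 2 - ε / 2) := by
    refine mul_le_mul_of_nonneg_left (Real.rpow_le_rpow_of_exponent_le hL1.le (by linarith)) (by linarith)
  refine (hexp.trans hT).trans ?_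
  have hU1 : 1 ≤ U1 := by linarith
  rw [← Set.ncard_coe_finset]
  rw [Nat.cast_le]
  refine Set.ncard_le_ncard_of_injOn (fun s => s.im) ?_ ?_ (simpleZeros_finite δ κ ε T (by linarith))
  · intro s hs
    rw [Finset.mem_coe, Finset.mem_filter, isoS, Finset.mem_filter, mem_Zf good_zeta hU1] at hs
    obtain ⟨⟨⟨k1, k2, k3, k4, k5⟩, k6, k7, k8⟩, k9, k10, k11⟩ := hs
    have e := half_eq k6
    have hz : riemannZeta (1 / 2 + I * (s.im : ℂ)) = 0 := by rw [e]; exact k5
    have hd : deriv Z s.im ≠ 0 := simple_of_order hz (by rw [e]; exact k7)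
    have hn : ‖deriv Z s.im‖ = ‖deriv riemannZeta s‖ := by rw [norm_deriv hz, e]
    have ht1 : T ≤ s.im := by linarith
    have ht2 : s.im ≤ 2 * T := by linarith
    have hlt : Real.log T ≤ Real.log s.im := Real.log_le_log (by linarith) ht1
    have hlt0 : 0 < Real.log s.im := by linarith
    have hnpos : 0 < ‖deriv Z s.im‖ := norm_pos_iff.mpr hd
    obtain ⟨m1, -⟩ := hl1.2 s.im ht1 ht2
    obtain ⟨m2, -⟩ := hl2.2 s.im ht1 ht2
    rw [abs_le] at m1 m2 k11
    refine ⟨by linarith, ht2, (Z_zero_iff _).mpr hz, hd, ?_, ?_, ?_⟩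
    · intro s' p1 p2 p3 p4
      rw [e] at p4 ⊢
      by_cases hin : U1 < s'.im ∧ s'.im ≤ U2
      · have := k8 s' ((mem_Zf good_zeta hU1).mpr ⟨p2, p3, hin.1, hin.2, p1⟩) p4
        rw [norm_sub_rev] at this
        exact (div_le_div_of_nonneg_left hδ.le hL0 hlt).trans this
      · have h1 : (1:ℝ) ≤ |(s' - s).im| := by
          rw [Complex.sub_im]
          rw [not_and_or] at hin
          rcases hin with hin | hin
          · rw [abs_of_nonpos (by linarith)]; linarith
          · rw [abs_of_nonneg (by linarith)]; linarith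
        have h2 : δ / Real.log s.im ≤ 1 := by
          rw [div_le_one hlt0]; linarith
        exact h2.trans (h1.trans (Complex.abs_im_le_norm _))
    · rw [hn] at hnpos ⊢
      rw [Real.rpow_def_of_pos hlt0, ← Real.le_log_iff_exp_le hnpos]
      nlinarith
    · rw [hn] at hnpos ⊢
      rw [Real.rpow_def_of_pos hlt0, ← Real.log_le_iff_le_exp hnpos]
      nlinarith
  · intro s hs s' hs' h
    rw [Finset.mem_coe, Finset.mem_filter, isoS, Finset.mem_filter] at hs hs'
    exact Complex.ext (hs.1.2.1.trans hs'.1.2.1.symm) h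

theorem upper {κ ε : ℝ} (hκ0 : 0 ≤ κ) (hκ2 : κ ≤ 2) (hε : 0 < ε) : ∀ᶠ T : ℝ in atTop,
    ((largeZeros κ T).ncard : ℝ) ≤ T * Real.log T ^ (1 - κ ^ 2 + ε) := by
  classical
  filter_upwards [Pool.Agent.V8H36.LD.b_upb hκ0 hκ2 hε, eventually_ge_atTop 1] with T hT hT1
  refine le_trans ?_ hT
  rw [← Set.ncard_coe_finset, Nat.cast_le]
  refine Set.ncard_le_ncard_of_injOn (fun t : ℝ => (1 / 2 + I * t : ℂ)) ?_ ?_ (Finset.finite_toSet _)
  · rintro t ⟨h1, h2, h3, h4⟩
    have hz := (Z_zero_iff t).mp h3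
    have i1 : (1 / 2 + I * t : ℂ).im = t := by simp
    have i2 : (1 / 2 + I * t : ℂ).re = 1 / 2 := by simp
    rw [Finset.mem_coe, Finset.mem_filter, mem_Zf good_zeta hT1]
    refine ⟨⟨?_, ?_, ?_, ?_, hz⟩, i2, ?_⟩
    · rw [i2]; norm_num
    · rw [i2]; norm_num
    · rw [i1]; exact h1
    · rw [i1]; exact h2
    · rw [i1, ← norm_deriv hz]; exact h4
  · intro a _ b _ hab
    have := congrArg Complex.im hab
    simpa using this

/-- Unconditionally. There is `δ > 0` such that for every real `κ`, every `ε > 0` and all large `T`, at least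
`T (log T) ^ (1 - κ² - ε)` real zeros `t` of `Z` in `(T, 2 T]` are simple, at distance at least `δ / log t` from all the other
nontrivial zeros of zeta, and satisfy `(log t) ^ (1 + κ - ε) ≤ |Z'(t)| ≤ (log t) ^ (1 + κ + ε)`. For `0 ≤ κ ≤ 2`, `ε > 0` and all
large `T`, at most `T (log T) ^ (1 - κ² + ε)` real zeros `t` of `Z` in `(T, 2 T]` satisfy `|Z'(t)| ≥ (log t) ^ (1 + κ)`. -/
theorem result :
    (∃ δ : ℝ, 0 < δ ∧ ∀ κ ε : ℝ, 0 < ε → ∀ᶠ T : ℝ in atTop,
      T * Real.log T ^ (1 - κ ^ 2 - ε) ≤ ((simpleZeros δ κ ε T).ncard : ℝ)) ∧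
    (∀ κ ε : ℝ, 0 ≤ κ → κ ≤ 2 → 0 < ε → ∀ᶠ T : ℝ in atTop,
      (largeZeros κ T).Finite ∧ ((largeZeros κ T).ncard : ℝ) ≤ T * Real.log T ^ (1 - κ ^ 2 + ε)) := by
  refine ⟨lower, fun κ ε h0 h2 hε => ?_⟩
  filter_upwards [upper h0 h2 hε, eventually_ge_atTop 1] with T h1 hT
  exact ⟨real_finite (T := 2 * T) fun t ht => ⟨by linarith [ht.1], ht.2.1, ht.2.2.1⟩, h1⟩

end Pool.Agent.Results.MP_6bc78b_nt.SpectrumOfDerivative
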