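import Pool.Agent.V8H36.HZ
import Pool.Agent.V8H36.UZ.Dy
import Pool.Agent.V8H36.UZ.Sum
import Pool.Agent.Y834.UT.Main

set_option autoImplicit false

/-!
# Universality of zeta at the simple zeros of Hardy's function

The zeta function is universal at the ordinates of the simple zeros of Hardy's function: for a compact subset `K` of the strip
`1/2 < Re z < 1` with connected complement, and a function `f` that is continuous on `K` and holomorphic without zeros in the
interior of `K`, a positive proportion of ALL the nontrivial zeros of zeta are simple zeros `1/2 + it` with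
`sup_{z ∈ K} |ζ(z + it) - f(z)| < ε`. For arbitrary `K` and `f`, the proportion of such zeros is at least
`3/2 - cot(1/√2)/√2 = 0.6725…` times the proportion of the real shifts with this property (with a smaller `ε`).
Unconditional. The proof uses the starting theorem on the simple zeros relative to every Dirichlet polynomial
(`Pool.Agent.Q97.UM`) and Voronin's theorem (`Pool.Agent.Helper240.ZU`, `Pool.Agent.Y834.UT`).
-/

open Filter Topology Complex MeasureTheory

namespace Pool.Agent.Results.MP_6bc78b_nt.UniversalitySimpleZeros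

open Pool.Agent.V8H36.HZ

/-- the real numbers `t` in `(0, X]` with `sup_{z ∈ K} |ζ(z + it) - f(z)| ≤ ε` -/
def shifts (K : Set ℂ) (f : ℂ → ℂ) (ε X : ℝ) : Set ℝ :=
  {t : ℝ | 0 < t ∧ t ≤ X ∧ ∀ z ∈ K, ‖riemannZeta (z + t * I) - f z‖ ≤ ε}

/-- the simple zeros `t` of `Z` in `(0, X]`, at distance at least `d / log t` from all the other nontrivial zeros of zeta, with
`|ζ(z + it) - f(z)| < ε` for all `z ∈ K` -/
def simpleShifts (d : ℝ) (K : Set ℂ) (f : ℂ → ℂ) (ε X : ℝ) : Set ℝ :=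
  {t : ℝ | 0 < t ∧ t ≤ X ∧ Z t = 0 ∧ deriv Z t ≠ 0 ∧
    (∀ s : ℂ, riemannZeta s = 0 → 0 < s.re → s.re < 1 → s ≠ 1 / 2 + I * t →
      d / Real.log t ≤ ‖s - (1 / 2 + I * t)‖) ∧
    ∀ z ∈ K, ‖riemannZeta (z + t * I) - f z‖ < ε}

theorem simpleShifts_finite (d : ℝ) (K : Set ℂ) (f : ℂ → ℂ) (ε X : ℝ) : (simpleShifts d K f ε X).Finite :=
  real_finite (T := X) fun _ ht => ⟨ht.1, ht.2.1, ht.2.2.1⟩

lemma shifts_eq (K : Set ℂ) (f : ℂ → ℂ) (ε X : ℝ) : shifts K f ε X = Pool.Agent.V8H36.UZ.SR K f ε ∩ Set.Ioc 0 X := by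
  ext t
  simp only [shifts, Pool.Agent.V8H36.UZ.SR, Set.mem_inter_iff, Set.mem_Ioc, Set.mem_ofPred_eq]
  tauto

open Classical in
lemma block {d T : ℝ} (hd : 0 < d) (hd1 : d ≤ 1) (hT : 16 ≤ T) (K : Set ℂ) (f : ℂ → ℂ) (ε : ℝ) :
    ((simpleShifts d K f ε T).ncard : ℝ) +
      (((Pool.Agent.Q97.UM.ZI d T).filter (fun s => ∀ z ∈ K, ‖riemannZeta (z + s.im * I) - f z‖ < ε)).card : ℝ) ≤
      ((simpleShifts d K f ε (2 * T)).ncard : ℝ) := by
  have hlog : 0 < Real.log T := Real.log_pos (by linarith)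
  set G := (Pool.Agent.Q97.UM.ZI d T).filter (fun s => ∀ z ∈ K, ‖riemannZeta (z + s.im * I) - f z‖ < ε) with hG
  have hinj : Set.InjOn (fun s : ℂ => s.im) (G : Set ℂ) := by
    intro s hs s' hs' h
    rw [Finset.mem_coe, hG, Finset.mem_filter, Pool.Agent.Q97.UM.mem_ZI_iff hT hd1] at hs hs'
    exact Complex.ext (hs.1.1.trans hs'.1.1.symm) h
  have hcard : ((fun s : ℂ => s.im) '' (G : Set ℂ)).ncard = G.card := by
    rw [Set.ncard_image_of_injOn hinj, Set.ncard_coe_finset]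
  have hdisj : Disjoint (simpleShifts d K f ε T) ((fun s : ℂ => s.im) '' (G : Set ℂ)) := by
    rw [Set.disjoint_left]
    rintro t ⟨h1, h2, -⟩ ⟨s, hs, rfl⟩
    rw [Finset.mem_coe, hG, Finset.mem_filter, Pool.Agent.Q97.UM.mem_ZI_iff hT hd1] at hs
    simp only at h2
    linarith [hs.1.2.1]
  have hsub : simpleShifts d K f ε T ∪ ((fun s : ℂ => s.im) '' (G : Set ℂ)) ⊆ simpleShifts d K f ε (2 * T) := by
    rintro t (⟨h1, h2, h3⟩ | ⟨s, hs, rfl⟩)
    · exact ⟨h1, by linarith, h3⟩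
    · rw [Finset.mem_coe, hG, Finset.mem_filter, Pool.Agent.Q97.UM.mem_ZI_iff hT hd1] at hs
      obtain ⟨⟨k1, k2, k3, k4, k5, k6⟩, k7⟩ := hs
      have e := half_eq k1
      have hz : riemannZeta (1 / 2 + I * (s.im : ℂ)) = 0 := by rw [e]; exact k4
      refine ⟨by simp only; linarith, k3, (Z_zero_iff _).mpr hz, ?_, ?_, k7⟩
      · simp only
        rw [(Z_hasDerivAt s.im hz).deriv, e]
        exact mul_ne_zero (phase_ne _) (mul_ne_zero k5 I_ne_zero)
      · intro s' p1 p2 p3 p4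
        simp only at p4 ⊢
        rw [e] at p4 ⊢
        refine le_trans ?_ (k6 s' p1 p2 p3 p4)
        exact div_le_div_of_nonneg_left hd.le hlog (Real.log_le_log (by linarith) k2.le)
  have hfinG : ((fun s : ℂ => s.im) '' (G : Set ℂ)).Finite := (Finset.finite_toSet G).image _
  have h := Set.ncard_le_ncard hsub (simpleShifts_finite d K f ε (2 * T))
  rw [Set.ncard_union_eq hdisj (simpleShifts_finite d K f ε T) hfinG, hcard] at h
  exact_mod_cast h

/-- the transfer -/
theorem transfer {ε₀ : ℝ} (hε₀ : 0 < ε₀) : ∃ d : ℝ, 0 < d ∧ ∀ (K : Set ℂ) (f : ℂ → ℂ), IsCompact K →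
    (∀ z ∈ K, 1 / 2 < z.re ∧ z.re < 1) → ∀ ε' ε η : ℝ, ε' < ε → 0 < η → ∀ᶠ X : ℝ in atTop,
      ((3 / 2 - Real.cot (1 / Real.sqrt 2) / Real.sqrt 2 - ε₀) * (volume.real (shifts K f ε' X) / X) - η) * (N X : ℝ) ≤
        ((simpleShifts d K f ε X).ncard : ℝ) := by
  classical
  have hc : 3 / 2 - Real.cot (1 / Real.sqrt 2) / Real.sqrt 2 = 2 - H370.cMTinv := by
    unfold H370.cMTinv; ring
  rw [hc]
  have hc1 := H370.cMTinv_gt_one
  have hc2 := H370.cMTinv_lt
  obtain ⟨d, hd, hd1, h⟩ := Pool.Agent.V8H36.UZ.dyadic (ε0 := min ε₀ (1 / 2)) (by positivity)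
  refine ⟨d, hd, fun K f hK hs ε' ε η hεε hη => ?_⟩
  have hpi := Real.pi_pos
  have hmin2 : min ε₀ (1 / 2) ≤ 1 / 2 := min_le_right _ _
  have hmin1 : min ε₀ (1 / 2) ≤ ε₀ := min_le_left _ _
  have hmin0 : 0 < min ε₀ (1 / 2) := by positivity
  obtain ⟨T1, hT1⟩ := eventually_atTop.1 (h K f hK hs ε' ε (η / (8 * Real.pi)) hεε (by positivity))
  have hcl : MeasurableSet (Pool.Agent.V8H36.UZ.SR K f ε') :=
    (Pool.Agent.V8H36.UZ.SR_closed (fun z hz => (hs z hz).2) f ε').measurableSet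
  have hfin := Pool.Agent.V8H36.UZ.final
    (F := fun X => ((simpleShifts d K f ε X).ncard : ℝ))
    (U := fun X => volume.real (shifts K f ε' X))
    (A := fun T => (((Pool.Agent.Q97.UM.ZI d T).filter (fun s => ∀ z ∈ K, ‖riemannZeta (z + s.im * I) - f z‖ < ε)).card : ℝ))
    (V := fun T => volume.real (Pool.Agent.V8H36.UZ.SR K f ε' ∩ Set.Icc T (2 * T)))
    (T0 := max 16 T1) (q := 2 - H370.cMTinv - min ε₀ (1 / 2)) (η := η)
    (le_trans (by norm_num) (le_max_left _ _)) (by linarith) (by linarith) hη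
    (fun T hT => block hd hd1 ((le_max_left _ _).trans hT) K f ε) ?_ (fun T => measureReal_nonneg)
    (fun T hT => hT1 T ((le_max_right _ _).trans hT)) (fun T => Nat.cast_nonneg _) ?_
  · filter_upwards [hfin, eventually_gt_atTop 0] with X hX hX0
    rw [N_eq]
    refine le_trans ?_ hX
    refine mul_le_mul_of_nonneg_right ?_ (Nat.cast_nonneg _)
    have h1 : 0 ≤ volume.real (shifts K f ε' X) / X := div_nonneg measureReal_nonneg hX0.le
    have h2 : (2 - H370.cMTinv - ε₀) * (volume.real (shifts K f ε' X) / X) ≤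
        (2 - H370.cMTinv - min ε₀ (1 / 2)) * (volume.real (shifts K f ε' X) / X) :=
      mul_le_mul_of_nonneg_right (by linarith) h1
    linarith
  · intro T hT
    have hT0 : 16 ≤ T := (le_max_left _ _).trans hT
    simp only [shifts_eq]
    refine (measureReal_mono (s₂ := (Pool.Agent.V8H36.UZ.SR K f ε' ∩ Set.Ioc 0 T) ∪
      (Pool.Agent.V8H36.UZ.SR K f ε' ∩ Set.Icc T (2 * T))) ?_ ?_).trans (measureReal_union_le _ _)
    · rintro t ⟨h1, h2, h3⟩
      rcases le_total t T with h4 | h4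
      · exact Or.inl ⟨h1, h2, h4⟩
      · exact Or.inr ⟨h1, h4, h3⟩
    · refine (measure_union_lt_top ?_ ?_).ne
      · exact (measure_mono Set.inter_subset_right).trans_lt measure_Ioc_lt_top
      · exact (measure_mono Set.inter_subset_right).trans_lt measure_Icc_lt_top
  · intro T hT
    refine ⟨measureReal_nonneg, ?_⟩
    simp only [shifts_eq]
    calc volume.real (Pool.Agent.V8H36.UZ.SR K f ε' ∩ Set.Ioc 0 T) ≤ volume.real (Set.Ioc 0 T) :=
          measureReal_mono Set.inter_subset_right measure_Ioc_lt_top.ne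
      _ = T := by rw [Real.volume_real_Ioc_of_le hT, sub_zero]

/-- Unconditionally, with `c = 3/2 - cot(1/√2)/√2 = 0.6725…`:
(1) for every `ε₀ > 0` there is `d > 0` such that for every compact set `K` in the strip `1/2 < Re z < 1`, every function `f`, all
`ε' < ε` and `η > 0` and all large `X`, the number of the simple zeros `t ∈ (0, X]` of `Z`, isolated by `d / log t`, with
`sup_K |ζ(z + it) - f(z)| < ε` is at least `((c - ε₀) M - η) N(X)`, where `M X` is the measure of the set of ALL real `t ∈ (0, X]` with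
`sup_K |ζ(z + it) - f(z)| ≤ ε'`;
(2) hence there is `d > 0` such that if moreover the complement of `K` is connected and `f` is continuous on `K` and
holomorphic without zeros in the interior of `K`, then for every `ε > 0` there is `c' > 0` such that for all large `X` at least
`c' N(X)` of the simple zeros `t ∈ (0, X]` of `Z`, isolated by `d / log t`, satisfy `|ζ(z + it) - f(z)| < ε` for all `z ∈ K`. -/
theorem result :
    (∀ ε₀ : ℝ, 0 < ε₀ → ∃ d : ℝ, 0 < d ∧ ∀ (K : Set ℂ) (f : ℂ → ℂ), IsCompact K →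
      (∀ z ∈ K, 1 / 2 < z.re ∧ z.re < 1) → ∀ ε' ε η : ℝ, ε' < ε → 0 < η → ∀ᶠ X : ℝ in atTop,
        ((3 / 2 - Real.cot (1 / Real.sqrt 2) / Real.sqrt 2 - ε₀) * (volume.real (shifts K f ε' X) / X) - η) * (N X : ℝ) ≤
          ((simpleShifts d K f ε X).ncard : ℝ)) ∧
    (∃ d : ℝ, 0 < d ∧ ∀ (K : Set ℂ) (f : ℂ → ℂ), IsCompact K → (∀ z ∈ K, 1 / 2 < z.re ∧ z.re < 1) →
      IsConnected Kᶜ → ContinuousOn f K → DifferentiableOn ℂ f (interior K) → (∀ z ∈ interior K, f z ≠ 0) →
      ∀ ε : ℝ, 0 < ε → ∃ c' : ℝ, 0 < c' ∧ ∀ᶠ X : ℝ in atTop,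
        c' * (N X : ℝ) ≤ ((simpleShifts d K f ε X).ncard : ℝ)) := by
  refine ⟨fun ε₀ h => transfer h, ?_⟩
  obtain ⟨d, hd, h⟩ := transfer (ε₀ := 1 / 4) (by norm_num)
  refine ⟨d, hd, fun K f hK hs hKc hfc hfd hf0 ε hε => ?_⟩
  have hc : 3 / 2 - Real.cot (1 / Real.sqrt 2) / Real.sqrt 2 = 2 - H370.cMTinv := by
    unfold H370.cMTinv; ring
  have hc2 := H370.cMTinv_lt
  have ht : Pool.Agent.Y834.UT.Tgt K f := by
    refine ⟨f, fun _ _ => rfl, ?_⟩
    rw [Pool.Agent.Y834.UT.hull_eq hK hKc]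
    exact ⟨hfc, hfd, fun z _ => Or.inl fun w hw => hf0 w (connectedComponentIn_subset _ _ hw)⟩
  obtain ⟨v, T0, hv, hT0, hT⟩ := Pool.Agent.Y834.UT.forward hK hs ht (show 0 < ε / 2 by positivity)
  refine ⟨v / 8, by positivity, ?_⟩
  filter_upwards [h K f hK hs (ε / 2) ε (v / 8) (by linarith) (by positivity), eventually_ge_atTop T0] with X hX hXT
  have hX0 : 0 < X := lt_of_lt_of_le hT0 hXT
  refine le_trans ?_ hX
  refine mul_le_mul_of_nonneg_right ?_ (Nat.cast_nonneg _)
  have h1 : v * X ≤ volume.real (shifts K f (ε / 2) X) := by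
    have h2 : ENNReal.ofReal (v * X) ≤ volume (shifts K f (ε / 2) X) := by
      refine (hT X hXT).trans ?_
      have h3 : volume (Pool.Agent.Y834.UT.SS (ε / 2) K f ∩ Set.Icc 0 X) ≤ volume (shifts K f (ε / 2) X ∪ {0}) := by
        refine measure_mono ?_
        rintro t ⟨⟨δ, hδ, hz⟩, h4, h5⟩
        rcases h4.eq_or_lt with h6 | h6
        · exact Or.inr h6.symm
        · exact Or.inl ⟨h6, h5, fun z hzK => (hz z hzK).trans hδ.le⟩
      refine h3.trans ((measure_union_le _ _).trans ?_)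
      simp
    have hfin : volume (shifts K f (ε / 2) X) ≠ ⊤ := by
      rw [shifts_eq]
      exact ((measure_mono Set.inter_subset_right).trans_lt measure_Ioc_lt_top).ne
    exact (ENNReal.ofReal_le_iff_le_toReal hfin).mp h2
  have h2 : v ≤ volume.real (shifts K f (ε / 2) X) / X := by
    rw [le_div_iff₀ hX0]; exact h1
  rw [hc]
  nlinarith

end Pool.Agent.Results.MP_6bc78b_nt.UniversalitySimpleZeros
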